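import Pool.Agent.R123.Nsc.Ruler

/-!
# The ruler sequence is the only square-free word with initial non-repetitive complexity at most `2 n`
-/

set_option autoImplicit false

namespace Pool.Agent.Results.MP_2232d5_co.RulerCharacterization

open Pool.Agent.R123.Nsc

/-- The initial non-repetitive complexity `nsc_y(n)`: the supremum (in the natural numbers with
infinity) of all `m` such that the factors of length `n` of `y` which begin at the places
`0, …, m - 1` are pairwise different. -/
noncomputable def nsc (y : ℕ → ℕ) (n : ℕ) : ℕ∞ :=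
  sSup {M : ℕ∞ | ∃ m : ℕ, M = m ∧
    ∀ i j, i < j → j < m → ∃ t, t < n ∧ y (i + t) ≠ y (j + t)}

/-- The infinite word `ruler` has every Zimin word as a beginning, and every infinite square-free
word `y` with `nsc_y(n) ≤ 2 n` for all `n ≥ 1` is `σ(ruler)` for an injective map `σ` of the letters,
that is, for a bijection `σ` from the letters of `ruler` (all the letters `0, 1, 2, …`) to the
letters of `y`. In particular `σ` is a bijection of the alphabet if every letter occurs in `y`. -/
theorem result : IsRuler ruler ∧
    ∀ y : ℕ → ℕ, SquareFree y → (∀ n : ℕ, 1 ≤ n → nsc y n ≤ 2 * n) →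
      ∃ σ : ℕ → ℕ, Function.Injective σ ∧ (∀ n, y n = σ (ruler n)) ∧
        ((∀ a, ∃ n, y n = a) → Function.Bijective σ) := by
  refine ⟨isRuler_ruler, fun y sf hn => ?_⟩
  have hr : Rep y := by
    intro n h1
    by_contra hcon
    push Not at hcon
    have h2 : ((2 * n + 1 : ℕ) : ℕ∞) ≤ nsc y n := by
      apply le_sSup
      exact ⟨2 * n + 1, rfl, fun i j hij hj => hcon i j hij (by omega)⟩
    have h3 := le_trans h2 (hn n h1)
    have h4 : 2 * n + 1 ≤ 2 * n := by exact_mod_cast h3
    omega
  refine ⟨fun k => y (2 ^ k - 1), letters_inj sf hr, fun n => eq_ruler sf hr n, fun h => ?_⟩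
  refine ⟨letters_inj sf hr, fun a => ?_⟩
  obtain ⟨n, hn'⟩ := h a
  exact ⟨ruler n, by rw [← hn']; exact (eq_ruler sf hr n).symm⟩

end Pool.Agent.Results.MP_2232d5_co.RulerCharacterization
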